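import Mathlib

set_option autoImplicit false

namespace Pool.Agent.Results.MP_e4c55d_nt.UnboundedPreperiod

open Polynomial

/-- The beta transformation `T_β(x) = β x - ⌊β x⌋`. -/
noncomputable def T (β x : ℝ) : ℝ := β * x - ⌊β * x⌋

/-- `T_β^n(1)`. -/
noncomputable def rem (β : ℝ) (n : ℕ) : ℝ := (T β)^[n] 1

/-- The digits `t_n = ⌊β T_β^{n-1}(1)⌋`, for `n ≥ 1`. -/
noncomputable def dig (β : ℝ) (n : ℕ) : ℤ := ⌊β * rem β (n - 1)⌋

/-- `t_{n+p} = t_n` for all `n > m`, with `p ≥ 1`. -/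
def PeriodicFrom (β : ℝ) (m p : ℕ) : Prop := 1 ≤ p ∧ ∀ n : ℕ, m < n → dig β (n + p) = dig β n

/-- Salem numbers. -/
structure IsSalem (β : ℝ) : Prop where
  one_lt : 1 < β
  integral : IsIntegral ℤ β
  conj_le : ∀ z : ℂ, aeval z (minpoly ℚ β) = 0 → z ≠ (β : ℂ) → ‖z‖ ≤ 1
  conj_eq : ∃ z : ℂ, aeval z (minpoly ℚ β) = 0 ∧ ‖z‖ = 1

lemma rem_succ (β : ℝ) (n : ℕ) : rem β (n + 1) = β * rem β n - ⌊β * rem β n⌋ := by
  rw [rem, Function.iterate_succ_apply']; rfl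

/-! ### The parameters -/

/-- the numerical data attached to the parameter `j` -/
structure Par (j : ℤ) (β θ ε μ e : ℝ) : Prop where
  hj : 2 ≤ j
  hθ : θ = 80 * j + 21 + ε
  hε : 0 < ε
  hrel : ε * (θ ^ 2 - θ - 2) = 20 * θ
  he : e * θ = 2 * ε
  hβμ : β * μ = 1
  hsum : θ = β + μ
  hβ : 1 < β

section

variable {j : ℤ} {β θ ε μ e : ℝ} (h : Par j β θ ε μ e)

include h

lemma f1 : 181 ≤ θ := by
  have h1 : (2 : ℝ) ≤ j := by exact_mod_cast h.hj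
  rw [h.hθ]; linarith [h.hε]

lemma f2 : 20 < ε * θ ∧ ε * θ ≤ 20.12 := by
  have h1 := f1 h
  have h2 : 0 < θ ^ 2 - θ - 2 := by nlinarith
  have h3 : (ε * θ - 20) * (θ ^ 2 - θ - 2) = 20 * θ + 40 := by
    linear_combination θ * h.hrel
  constructor
  · by_contra hcon
    push Not at hcon
    nlinarith
  · by_contra hcon
    push Not at hcon
    have h4 : 0.12 * (θ ^ 2 - θ - 2) < (ε * θ - 20) * (θ ^ 2 - θ - 2) :=
      mul_lt_mul_of_pos_right (by linarith) h2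
    rw [h3] at h4
    nlinarith

lemma f3 : 0 < μ ∧ μ ≤ 0.006 ∧ μ * θ = 1 + μ ^ 2 ∧ μ * θ ≤ 1.01 := by
  have h1 := f1 h
  have h2 := h.hβμ
  have h3 := h.hsum
  have h4 := h.hβ
  have h5 : 0 < μ := by
    by_contra hcon
    push Not at hcon
    nlinarith
  have h6 : μ < 1 := by
    by_contra hcon
    push Not at hcon
    nlinarith
  have h7 : 180 < β := by linarith
  have h8 : μ ≤ 0.006 := by
    by_contra hcon
    push Not at hcon
    nlinarith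
  have h9 : μ * θ = 1 + μ ^ 2 := by rw [h3]; linear_combination h2
  refine ⟨h5, h8, h9, ?_⟩
  rw [h9]; nlinarith

/-- `g = θ η`, where `η = 1 - (4 j + 1) ε` -/
lemma f4 : θ * (1 - (4 * j + 1) * ε) = ε * (ε * θ - 2) / 20 := by
  have h1 : (4 * (j : ℝ) + 1) = (θ - 1 - ε) / 20 := by rw [h.hθ]; ring
  rw [h1]
  linear_combination (-1 / 20 : ℝ) * h.hrel

lemma f5 : 0 < ε ∧ ε ≤ 0.112 := by
  have h1 := f1 h
  obtain ⟨h2, h3⟩ := f2 h
  refine ⟨h.hε, ?_⟩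
  by_contra hcon
  push Not at hcon
  nlinarith

lemma f6 : 0 < ε * (ε * θ - 2) / 20 ∧ ε * (ε * θ - 2) / 20 ≤ 0.102 := by
  obtain ⟨h2, h3⟩ := f2 h
  obtain ⟨h4, h5⟩ := f5 h
  constructor
  · have : 0 < ε * (ε * θ - 2) := mul_pos h4 (by linarith)
    linarith
  · have : ε * (ε * θ - 2) ≤ 0.112 * 18.12 := mul_le_mul h5 (by linarith) (by linarith) (by norm_num)
    norm_num at this ⊢
    linarith

lemma f7 : 0 < 1 - (4 * j + 1) * ε ∧ 1 - (4 * j + 1) * ε ≤ 0.001 := by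
  have h1 := f1 h
  have h4 := f4 h
  obtain ⟨h5, h6⟩ := f6 h
  rw [← h4] at h5 h6
  constructor
  · by_contra hcon
    push Not at hcon
    nlinarith
  · by_contra hcon
    push Not at hcon
    nlinarith

end

/-- the linear form -/
noncomputable def D (ε e : ℝ) (l₀ l₁ l₂ l₃ l₄ : ℤ) : ℝ :=
  l₀ + (ε - 1) * l₁ + e * l₂ + (ε - 1) * l₃ + l₄

/-- the value attached to a window of six integers -/
noncomputable def V (ε μ e : ℝ) (l₀ l₁ l₂ l₃ l₄ l₅ : ℤ) : ℝ :=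
  D ε e l₁ l₂ l₃ l₄ l₅ - μ * D ε e l₀ l₁ l₂ l₃ l₄

/-- the window is admissible -/
def Good (ε μ e : ℝ) (l₀ l₁ l₂ l₃ l₄ l₅ : ℤ) : Prop :=
  0 ≤ V ε μ e l₀ l₁ l₂ l₃ l₄ l₅ ∧ V ε μ e l₀ l₁ l₂ l₃ l₄ l₅ < 1

lemma ab {x y A B : ℝ} (hx : |x| ≤ A) (hy : |y| ≤ B) : |x * y| ≤ A * B := by
  rw [abs_mul]
  exact mul_le_mul hx hy (abs_nonneg _) (le_trans (abs_nonneg _) hx)

lemma ab2 {x y A B : ℝ} (hx : |x| ≤ A) (hy : |y| ≤ B) : |x + y| ≤ A + B :=
  (abs_add_le x y).trans (add_le_add hx hy)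

section

variable {j : ℤ} {β θ ε μ e : ℝ} (h : Par j β θ ε μ e)

include h

lemma generic (l₀ l₁ l₂ l₃ l₄ l₅ : ℤ) (b₁ : |l₁| ≤ 2 * j + 1) (b₂ : |l₂| ≤ 2 * j + 1)
    (b₃ : |l₃| ≤ 2 * j + 1) (b₄ : |l₄| ≤ 2 * j + 1) (bΔ : |l₀ - l₁ - l₃ + l₄| ≤ 2)
    (k₁ : 1 ≤ (4 * j + 1) * (l₁ - l₂ - l₄ + l₅) + l₂ + l₄)
    (k₂ : (4 * j + 1) * (l₁ - l₂ - l₄ + l₅) + l₂ + l₄ ≤ 4 * j) :
    Good ε μ e l₀ l₁ l₂ l₃ l₄ l₅ := by
  have t1 := f1 h
  obtain ⟨t2, t3⟩ := f2 h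
  obtain ⟨t4, t5, t6, t7⟩ := f3 h
  have t8 := f4 h
  obtain ⟨t9, t10⟩ := f5 h
  obtain ⟨t11, t12⟩ := f6 h
  obtain ⟨t13, t14⟩ := f7 h
  have hjR : (2 : ℝ) ≤ j := by exact_mod_cast h.hj
  have hθ0 : 0 < θ := by linarith
  have hb : (2 * (j : ℝ) + 1) ≤ 0.03 * θ := by
    rw [h.hθ]; linarith
  have conv : ∀ l : ℤ, |l| ≤ 2 * j + 1 → ∃ v : ℝ, (l : ℝ) = v * θ ∧ |v| ≤ 0.03 := by
    intro l hl
    refine ⟨l / θ, by field_simp, ?_⟩
    have hl' : |(l : ℝ)| ≤ 2 * j + 1 := by exact_mod_cast hl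
    rw [abs_div, abs_of_pos hθ0, div_le_iff₀ hθ0]
    linarith
  obtain ⟨v₁, e₁, c₁⟩ := conv l₁ b₁
  obtain ⟨v₂, e₂, c₂⟩ := conv l₂ b₂
  obtain ⟨v₃, e₃, c₃⟩ := conv l₃ b₃
  obtain ⟨v₄, e₄, c₄⟩ := conv l₄ b₄
  obtain ⟨N, hN⟩ : ∃ N : ℝ, N = 4 * j + 1 := ⟨_, rfl⟩
  obtain ⟨K, hK⟩ : ∃ K : ℝ, K = N * (l₁ - l₂ - l₄ + l₅) + l₂ + l₄ := ⟨_, rfl⟩
  obtain ⟨Δ, hΔ⟩ : ∃ Δ : ℝ, Δ = l₀ - l₁ - l₃ + l₄ := ⟨_, rfl⟩
  obtain ⟨g, hg⟩ : ∃ g : ℝ, g = ε * (ε * θ - 2) / 20 := ⟨_, rfl⟩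
  rw [← hN] at t8 t13 t14
  rw [← hg] at t8 t11 t12
  have hK1 : 1 ≤ K := by rw [hK, hN]; exact_mod_cast k₁
  have hK2 : K ≤ N - 1 := by
    have : K ≤ 4 * j := by rw [hK, hN]; exact_mod_cast k₂
    linarith
  have hΔ2 : |Δ| ≤ 2 := by rw [hΔ]; exact_mod_cast bΔ
  have hNθ : N ≤ θ / 20 := by rw [hN, h.hθ]; linarith
  have hN0 : 0 < N := by rw [hN]; linarith
  have hw : |N * μ| ≤ 0.051 := by
    rw [abs_of_pos (mul_pos hN0 t4)]
    have : N * μ ≤ θ / 20 * μ := mul_le_mul_of_nonneg_right hNθ t4.le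
    linarith
  have ha : |N * ε| ≤ 1 := by
    rw [abs_of_pos (mul_pos hN0 t9)]; linarith
  have hm : |μ * θ| ≤ 1.01 := by
    rw [abs_of_pos (mul_pos t4 hθ0)]; exact t7
  have hμ : |μ| ≤ 0.006 := by rw [abs_of_pos t4]; exact t5
  have hga : |g| ≤ 0.102 := by rw [abs_of_pos t11]; exact t12
  have key : N * V ε μ e l₀ l₁ l₂ l₃ l₄ l₅ = K - g * (v₂ + v₄) + 2 * ((N * ε) * v₃)
      - (N * μ) * Δ - ((N * ε) * (μ * θ)) * (v₁ + v₃) - 2 * (((N * ε) * μ) * v₂) := by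
    unfold V D
    rw [hK, hΔ, e₁, e₂, e₃, e₄]
    linear_combination (-(v₂ + v₄)) * t8 + (N * v₃ - N * μ * v₂) * h.he
  have s1 : |g * (v₂ + v₄)| ≤ 0.102 * (0.03 + 0.03) := ab hga (ab2 c₂ c₄)
  have s2 : |(N * ε) * v₃| ≤ 1 * 0.03 := ab ha c₃
  have s3 : |(N * μ) * Δ| ≤ 0.051 * 2 := ab hw hΔ2
  have s4 : |((N * ε) * (μ * θ)) * (v₁ + v₃)| ≤ (1 * 1.01) * (0.03 + 0.03) :=
    ab (ab ha hm) (ab2 c₁ c₃)
  have s5 : |((N * ε) * μ) * v₂| ≤ (1 * 0.006) * 0.03 := ab (ab ha hμ) c₂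
  rw [abs_le] at s1 s2 s3 s4 s5
  have r1 : 0 < N * V ε μ e l₀ l₁ l₂ l₃ l₄ l₅ := by
    rw [key]; linarith [s1.1, s1.2, s2.1, s2.2, s3.1, s3.2, s4.1, s4.2, s5.1, s5.2]
  have r2 : N * V ε μ e l₀ l₁ l₂ l₃ l₄ l₅ < N * 1 := by
    rw [key]; linarith [s1.1, s1.2, s2.1, s2.2, s3.1, s3.2, s4.1, s4.2, s5.1, s5.2]
  exact ⟨((mul_pos_iff_of_pos_left hN0).1 r1).le, lt_of_mul_lt_mul_left r2 hN0.le⟩

lemma of_scaled {x y : ℝ} (hx : θ * x = y) (h0 : 0 ≤ y) (h1 : y < 2) : 0 ≤ x ∧ x < 1 := by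
  have t1 := f1 h
  constructor
  · by_contra hcon
    push Not at hcon
    nlinarith
  · by_contra hcon
    push Not at hcon
    nlinarith

lemma pos0 : 0 ≤ ε - ε * (ε * θ - 2) / 20 - μ - μ ^ 2 := by
  have t1 := f1 h
  obtain ⟨t2, t3⟩ := f2 h
  obtain ⟨t4, t5, t6, t7⟩ := f3 h
  by_contra hcon
  push Not at hcon
  have e1 : θ * (ε - ε * (ε * θ - 2) / 20 - μ - μ ^ 2) =
      (ε * θ) * (22 - ε * θ) / 20 - μ * θ - μ * (μ * θ) := by ring
  have e2 : θ * (ε - ε * (ε * θ - 2) / 20 - μ - μ ^ 2) < 0 :=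
    mul_neg_of_pos_of_neg (by linarith) hcon
  have e3 : 20 * 1.88 ≤ (ε * θ) * (22 - ε * θ) :=
    mul_le_mul t2.le (by linarith) (by norm_num) (by linarith)
  have e4 : μ * (μ * θ) ≤ 0.006 * 1.01 := mul_le_mul t5 t7 (by linarith [sq_nonneg μ]) (by norm_num)
  rw [e1] at e2
  norm_num at e3 e4
  linarith

/-- all the auxiliary facts used for the exceptional windows -/
lemma facts : ∃ g a : ℝ, g = ε * (ε * θ - 2) / 20 ∧ a = (4 * j + 1) * ε ∧ θ * (1 - a) = g ∧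
    0 < g ∧ g ≤ 0.102 ∧ 0.999 ≤ a ∧ a < 1 ∧ 0 < ε ∧ ε ≤ 0.112 ∧ 0 < μ ∧ μ ≤ 0.006 ∧
    μ * θ = 1 + μ ^ 2 ∧ μ * θ ≤ 1.01 ∧ 0 ≤ ε - g - μ - μ ^ 2 ∧ 181 ≤ θ := by
  obtain ⟨t4, t5, t6, t7⟩ := f3 h
  obtain ⟨t9, t10⟩ := f5 h
  obtain ⟨t11, t12⟩ := f6 h
  obtain ⟨t13, t14⟩ := f7 h
  refine ⟨_, _, rfl, rfl, f4 h, t11, t12, by linarith, by linarith, t9, t10, t4, t5, t6, t7,
    pos0 h, f1 h⟩

lemma tieC : Good ε μ e (2 * j - 1) (2 * j) (2 * j) (2 * j) (2 * j + 1) (2 * j + 1) := by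
  obtain ⟨g, a, hg, ha, t8, t11, t12, t13, t14, t9, t10, t4, t5, t6, t7, t15, t1⟩ := facts h
  have hx : θ * V ε μ e (2 * j - 1) (2 * j) (2 * j) (2 * j) (2 * j + 1) (2 * j + 1) =
      θ - g + (a - ε) * (1 - μ) - (μ * θ) * (a - ε) := by
    unfold V D
    push_cast
    rw [ha] at t8 ⊢
    linear_combination (-1 : ℝ) * t8 + (2 * j) * (1 - μ) * h.he
  have c1 : 0 < a - ε := by linarith
  have c2 : (μ * θ) * (a - ε) ≤ 1.01 * 1 := mul_le_mul t7 (by linarith) c1.le (by norm_num)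
  have c3 : 0 ≤ (a - ε) * (1 - μ) := mul_nonneg c1.le (by linarith)
  have c4 : (a - ε) * (1 - μ) < (μ * θ) * (a - ε) := by
    rw [mul_comm (μ * θ)]
    apply mul_lt_mul_of_pos_left _ c1
    rw [t6]; nlinarith
  constructor
  · have h0 : 0 < θ * V ε μ e (2 * j - 1) (2 * j) (2 * j) (2 * j) (2 * j + 1) (2 * j + 1) := by
      rw [hx]; linarith
    exact ((mul_pos_iff_of_pos_left (by linarith)).1 h0).le
  · have h0 : θ * V ε μ e (2 * j - 1) (2 * j) (2 * j) (2 * j) (2 * j + 1) (2 * j + 1) < θ * 1 := by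
      rw [hx]; linarith
    exact lt_of_mul_lt_mul_left h0 (by linarith)

lemma tieA : Good ε μ e (2 * j) (2 * j) (2 * j) (2 * j + 1) (2 * j + 1) (2 * j) := by
  obtain ⟨g, a, hg, ha, t8, t11, t12, t13, t14, t9, t10, t4, t5, t6, t7, t15, t1⟩ := facts h
  have hx : θ * V ε μ e (2 * j) (2 * j) (2 * j) (2 * j + 1) (2 * j + 1) (2 * j) =
      -g + (a + ε) - (μ * θ) * a - μ * (a - ε) := by
    unfold V D
    push_cast
    rw [ha] at t8 ⊢
    linear_combination (-1 : ℝ) * t8 + ((2 * j + 1) - 2 * j * μ) * h.he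
  rw [t6] at hx
  have c1 : μ * a ≤ μ * 1 := mul_le_mul_of_nonneg_left t14.le t4.le
  have c2 : μ ^ 2 * a ≤ μ ^ 2 * 1 := mul_le_mul_of_nonneg_left t14.le (sq_nonneg μ)
  have c3 : 0 < μ * ε := mul_pos t4 t9
  have c4 : 0 ≤ μ ^ 2 * a := mul_nonneg (sq_nonneg μ) (by linarith)
  have c5 : 0 ≤ μ * a := mul_nonneg t4.le (by linarith)
  have c6 : μ * ε ≤ 0.006 * 0.112 := mul_le_mul t5 t10 t9.le (by norm_num)
  exact of_scaled h hx (by nlinarith) (by nlinarith)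

lemma tie2 : Good ε μ e (2 * j) (2 * j) (2 * j + 1) (2 * j + 1) (2 * j) (2 * j) := by
  obtain ⟨g, a, hg, ha, t8, t11, t12, t13, t14, t9, t10, t4, t5, t6, t7, t15, t1⟩ := facts h
  have hx : θ * V ε μ e (2 * j) (2 * j) (2 * j + 1) (2 * j + 1) (2 * j) (2 * j) =
      (1 - μ) * (-g + (a + ε)) := by
    unfold V D
    push_cast
    rw [ha] at t8 ⊢
    linear_combination (-(1 - μ)) * t8 + (1 - μ) * (2 * j + 1) * h.he
  have c1 : 0 ≤ (1 - μ) * (-g + (a + ε)) := mul_nonneg (by linarith) (by linarith)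
  have c2 : (1 - μ) * (-g + (a + ε)) ≤ 1 * 1.2 :=
    mul_le_mul (by linarith) (by linarith) (by linarith) (by norm_num)
  exact of_scaled h hx c1 (by linarith)

lemma tie3 : Good ε μ e (2 * j) (2 * j + 1) (2 * j + 1) (2 * j) (2 * j) (2 * j - 1) := by
  obtain ⟨g, a, hg, ha, t8, t11, t12, t13, t14, t9, t10, t4, t5, t6, t7, t15, t1⟩ := facts h
  have hx : θ * V ε μ e (2 * j) (2 * j + 1) (2 * j + 1) (2 * j) (2 * j) (2 * j - 1) =
      -g + (a - ε) + μ * g - μ * (a + ε) := by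
    unfold V D
    push_cast
    rw [ha] at t8 ⊢
    linear_combination (-(1 - μ)) * t8 + (2 * j - μ * (2 * j + 1)) * h.he
  have c1 : 0 ≤ μ * g := mul_nonneg t4.le t11.le
  have c2 : μ * g ≤ 0.006 * 0.102 := mul_le_mul t5 t12 t11.le (by norm_num)
  have c3 : 0 ≤ μ * (a + ε) := mul_nonneg t4.le (by linarith)
  have c4 : μ * (a + ε) ≤ 0.006 * 1.2 := mul_le_mul t5 (by linarith) (by linarith) (by norm_num)
  exact of_scaled h hx (by linarith) (by linarith)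

lemma tieW : Good ε μ e (2 * j - 2) (2 * j - 1) (2 * j) (2 * j) (2 * j + 1) (2 * j + 1) := by
  obtain ⟨g, a, hg, ha, t8, t11, t12, t13, t14, t9, t10, t4, t5, t6, t7, t15, t1⟩ := facts h
  have hx : θ * V ε μ e (2 * j - 2) (2 * j - 1) (2 * j) (2 * j) (2 * j + 1) (2 * j + 1) =
      -g + (a - ε) - (μ * θ) * (a - 2 * ε) - μ * (a - ε) := by
    unfold V D
    push_cast
    rw [ha] at t8 ⊢
    linear_combination (-1 : ℝ) * t8 + (2 * j) * (1 - μ) * h.he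
  rw [t6] at hx
  have c1 : μ * a ≤ μ * 1 := mul_le_mul_of_nonneg_left t14.le t4.le
  have c2 : μ ^ 2 * a ≤ μ ^ 2 * 1 := mul_le_mul_of_nonneg_left t14.le (sq_nonneg μ)
  have c3 : 0 < μ * ε := mul_pos t4 t9
  have c4 : 0 ≤ μ ^ 2 * a := mul_nonneg (sq_nonneg μ) (by linarith)
  have c5 : 0 ≤ μ * a := mul_nonneg t4.le (by linarith)
  have c6 : μ * ε ≤ 0.006 * 0.112 := mul_le_mul t5 t10 t9.le (by norm_num)
  have c7 : 0 ≤ μ ^ 2 * ε := mul_nonneg (sq_nonneg μ) t9.le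
  have c8 : μ ^ 2 * ε ≤ 1 * 0.112 := mul_le_mul (by nlinarith) t10 t9.le (by norm_num)
  exact of_scaled h hx (by nlinarith) (by nlinarith)

lemma tie4 : Good ε μ e (2 * j - 1) (2 * j) (2 * j) (2 * j + 1) (2 * j + 1) (2 * j) := by
  obtain ⟨g, a, hg, ha, t8, t11, t12, t13, t14, t9, t10, t4, t5, t6, t7, t15, t1⟩ := facts h
  have hx : θ * V ε μ e (2 * j - 1) (2 * j) (2 * j) (2 * j + 1) (2 * j + 1) (2 * j) =
      -g + (a + ε) + μ * g - μ * (a - ε) := by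
    unfold V D
    push_cast
    rw [ha] at t8 ⊢
    linear_combination (-(1 - μ)) * t8 + ((2 * j + 1) - μ * (2 * j)) * h.he
  have c1 : 0 ≤ μ * g := mul_nonneg t4.le t11.le
  have c2 : μ * g ≤ 0.006 * 0.102 := mul_le_mul t5 t12 t11.le (by norm_num)
  have c3 : 0 ≤ μ * (a - ε) := mul_nonneg t4.le (by linarith)
  have c4 : μ * (a - ε) ≤ 0.006 * 1.2 := mul_le_mul t5 (by linarith) (by linarith) (by norm_num)
  exact of_scaled h hx (by linarith) (by linarith)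

end

/-! ### The windows of the cycle -/

/-- the windows occurring in the periodic part -/
inductive Cyc (j : ℤ) : ℤ → ℤ → ℤ → ℤ → ℤ → ℤ → Prop
  | t2 : Cyc j (2 * j) (2 * j) (2 * j + 1) (2 * j + 1) (2 * j) (2 * j)
  | t3 : Cyc j (2 * j) (2 * j + 1) (2 * j + 1) (2 * j) (2 * j) (2 * j - 1)
  | u : Cyc j (2 * j + 1) (2 * j + 1) (2 * j) (2 * j) (2 * j - 1) (2 * j - 2)
  | E (i : ℤ) (h₁ : 1 ≤ i) (h₂ : i ≤ j) :
      Cyc j (2 * i) (2 * i) (2 * i - 1) (2 * i - 2) (2 * i - 2) (2 * i - 3)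
  | F (i : ℤ) (h₁ : 2 ≤ i) (h₂ : i ≤ j) :
      Cyc j (2 * i) (2 * i - 1) (2 * i - 2) (2 * i - 2) (2 * i - 3) (2 * i - 4)
  | G (i : ℤ) (h₁ : 2 ≤ i) (h₂ : i ≤ j + 1) :
      Cyc j (2 * i - 1) (2 * i - 2) (2 * i - 2) (2 * i - 3) (2 * i - 4) (2 * i - 4)
  | b1 : Cyc j 2 1 0 0 (-1) (-1)
  | b2 : Cyc j 1 0 0 (-1) (-1) 0
  | b3 : Cyc j 0 0 (-1) (-1) 0 0
  | b4 : Cyc j 0 (-1) (-1) 0 0 1
  | b5 : Cyc j (-1) (-1) 0 0 1 2
  | J (i : ℤ) (h₁ : -1 ≤ i) (h₂ : i ≤ j - 2) :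
      Cyc j (2 * i + 1) (2 * i + 2) (2 * i + 2) (2 * i + 3) (2 * i + 4) (2 * i + 4)
  | H (i : ℤ) (h₁ : 0 ≤ i) (h₂ : i ≤ j - 1) :
      Cyc j (2 * i) (2 * i) (2 * i + 1) (2 * i + 2) (2 * i + 2) (2 * i + 3)
  | I (i : ℤ) (h₁ : 0 ≤ i) (h₂ : i ≤ j - 2) :
      Cyc j (2 * i) (2 * i + 1) (2 * i + 2) (2 * i + 2) (2 * i + 3) (2 * i + 4)
  | w : Cyc j (2 * j - 2) (2 * j - 1) (2 * j) (2 * j) (2 * j + 1) (2 * j + 1)
  | t4 : Cyc j (2 * j - 1) (2 * j) (2 * j) (2 * j + 1) (2 * j + 1) (2 * j)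

lemma Cyc.of_eq {j l₀ l₁ l₂ l₃ l₄ l₅ k₀ k₁ k₂ k₃ k₄ k₅ : ℤ} (h : Cyc j k₀ k₁ k₂ k₃ k₄ k₅)
    (e₀ : l₀ = k₀) (e₁ : l₁ = k₁) (e₂ : l₂ = k₂) (e₃ : l₃ = k₃) (e₄ : l₄ = k₄) (e₅ : l₅ = k₅) :
    Cyc j l₀ l₁ l₂ l₃ l₄ l₅ := by
  subst e₀ e₁ e₂ e₃ e₄ e₅; exact h

lemma Cyc.next {j : ℤ} (hj : 2 ≤ j) {l₀ l₁ l₂ l₃ l₄ l₅ : ℤ} (h : Cyc j l₀ l₁ l₂ l₃ l₄ l₅) :
    ∃ l₆ : ℤ, Cyc j l₁ l₂ l₃ l₄ l₅ l₆ := by
  cases h with
  | t2 => exact ⟨_, Cyc.t3⟩
  | t3 => exact ⟨_, Cyc.u⟩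
  | u => exact ⟨2 * j - 2, (Cyc.G (j + 1) (by omega) le_rfl).of_eq (by ring) (by ring) (by ring)
      (by ring) (by ring) (by ring)⟩
  | E i h₁ h₂ =>
    rcases h₁.eq_or_lt with h₃ | h₃
    · subst h₃
      exact ⟨-1, Cyc.b1⟩
    · exact ⟨_, Cyc.F i (by omega) h₂⟩
  | F i h₁ h₂ => exact ⟨_, Cyc.G i h₁ (by omega)⟩
  | G i h₁ h₂ => exact ⟨2 * i - 5, (Cyc.E (i - 1) (by omega) (by omega)).of_eq (by ring) (by ring)
      (by ring) (by ring) (by ring) (by ring)⟩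
  | b1 => exact ⟨_, Cyc.b2⟩
  | b2 => exact ⟨_, Cyc.b3⟩
  | b3 => exact ⟨_, Cyc.b4⟩
  | b4 => exact ⟨_, Cyc.b5⟩
  | b5 => exact ⟨2, (Cyc.J (-1) le_rfl (by omega)).of_eq (by norm_num) (by norm_num)
      (by norm_num) (by norm_num) (by norm_num) (by norm_num)⟩
  | J i h₁ h₂ => exact ⟨2 * i + 5, (Cyc.H (i + 1) (by omega) (by omega)).of_eq (by ring) (by ring)
      (by ring) (by ring) (by ring) (by ring)⟩
  | H i h₁ h₂ =>
    rcases h₂.eq_or_lt with h₃ | h₃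
    · subst h₃
      exact ⟨2 * j + 1, Cyc.w.of_eq (by ring) (by ring) (by ring) (by ring) (by ring) (by ring)⟩
    · exact ⟨_, Cyc.I i h₁ (by omega)⟩
  | I i h₁ h₂ => exact ⟨_, Cyc.J i (by omega) h₂⟩
  | w => exact ⟨_, Cyc.t4⟩
  | t4 => exact ⟨_, Cyc.t2⟩

lemma Cyc.good {j : ℤ} {β θ ε μ e : ℝ} (h : Par j β θ ε μ e) {l₀ l₁ l₂ l₃ l₄ l₅ : ℤ}
    (hc : Cyc j l₀ l₁ l₂ l₃ l₄ l₅) : Good ε μ e l₀ l₁ l₂ l₃ l₄ l₅ := by
  have hj := h.hj
  cases hc with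
  | t2 => exact tie2 h
  | t3 => exact tie3 h
  | w => exact tieW h
  | t4 => exact tie4 h
  | u =>
    apply generic h
    · rw [abs_le]; constructor <;> omega
    · rw [abs_le]; constructor <;> omega
    · rw [abs_le]; constructor <;> omega
    · rw [abs_le]; constructor <;> omega
    · rw [abs_le]; constructor <;> omega
    · ring_nf; omega
    · ring_nf; omega
  | E i h₁ h₂ =>
    apply generic h
    · rw [abs_le]; constructor <;> omega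
    · rw [abs_le]; constructor <;> omega
    · rw [abs_le]; constructor <;> omega
    · rw [abs_le]; constructor <;> omega
    · rw [abs_le]; constructor <;> omega
    · ring_nf; omega
    · ring_nf; omega
  | F i h₁ h₂ =>
    apply generic h
    · rw [abs_le]; constructor <;> omega
    · rw [abs_le]; constructor <;> omega
    · rw [abs_le]; constructor <;> omega
    · rw [abs_le]; constructor <;> omega
    · rw [abs_le]; constructor <;> omega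
    · ring_nf; omega
    · ring_nf; omega
  | G i h₁ h₂ =>
    apply generic h
    · rw [abs_le]; constructor <;> omega
    · rw [abs_le]; constructor <;> omega
    · rw [abs_le]; constructor <;> omega
    · rw [abs_le]; constructor <;> omega
    · rw [abs_le]; constructor <;> omega
    · ring_nf; omega
    · ring_nf; omega
  | b1 =>
    apply generic h
    · rw [abs_le]; constructor <;> omega
    · rw [abs_le]; constructor <;> omega
    · rw [abs_le]; constructor <;> omega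
    · rw [abs_le]; constructor <;> omega
    · rw [abs_le]; constructor <;> omega
    · ring_nf; omega
    · ring_nf; omega
  | b2 =>
    apply generic h
    · rw [abs_le]; constructor <;> omega
    · rw [abs_le]; constructor <;> omega
    · rw [abs_le]; constructor <;> omega
    · rw [abs_le]; constructor <;> omega
    · rw [abs_le]; constructor <;> omega
    · ring_nf; omega
    · ring_nf; omega
  | b3 =>
    apply generic h
    · rw [abs_le]; constructor <;> omega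
    · rw [abs_le]; constructor <;> omega
    · rw [abs_le]; constructor <;> omega
    · rw [abs_le]; constructor <;> omega
    · rw [abs_le]; constructor <;> omega
    · ring_nf; omega
    · ring_nf; omega
  | b4 =>
    apply generic h
    · rw [abs_le]; constructor <;> omega
    · rw [abs_le]; constructor <;> omega
    · rw [abs_le]; constructor <;> omega
    · rw [abs_le]; constructor <;> omega
    · rw [abs_le]; constructor <;> omega
    · ring_nf; omega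
    · ring_nf; omega
  | b5 =>
    apply generic h
    · rw [abs_le]; constructor <;> omega
    · rw [abs_le]; constructor <;> omega
    · rw [abs_le]; constructor <;> omega
    · rw [abs_le]; constructor <;> omega
    · rw [abs_le]; constructor <;> omega
    · ring_nf; omega
    · ring_nf; omega
  | J i h₁ h₂ =>
    apply generic h
    · rw [abs_le]; constructor <;> omega
    · rw [abs_le]; constructor <;> omega
    · rw [abs_le]; constructor <;> omega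
    · rw [abs_le]; constructor <;> omega
    · rw [abs_le]; constructor <;> omega
    · ring_nf; omega
    · ring_nf; omega
  | H i h₁ h₂ =>
    apply generic h
    · rw [abs_le]; constructor <;> omega
    · rw [abs_le]; constructor <;> omega
    · rw [abs_le]; constructor <;> omega
    · rw [abs_le]; constructor <;> omega
    · rw [abs_le]; constructor <;> omega
    · ring_nf; omega
    · ring_nf; omega
  | I i h₁ h₂ =>
    apply generic h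
    · rw [abs_le]; constructor <;> omega
    · rw [abs_le]; constructor <;> omega
    · rw [abs_le]; constructor <;> omega
    · rw [abs_le]; constructor <;> omega
    · rw [abs_le]; constructor <;> omega
    · ring_nf; omega
    · ring_nf; omega

/-! ### The orbit -/

section

variable {j : ℤ} {β θ ε μ e : ℝ} (h : Par j β θ ε μ e)

include h

lemma e_eq : e = θ * ε - ε - 20 := by
  have t1 := f1 h
  have h1 : θ * (e - (θ * ε - ε - 20)) = 0 := by linear_combination h.he - h.hrel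
  rcases mul_eq_zero.1 h1 with h2 | h2
  · linarith
  · linarith

lemma step (l₀ l₁ l₂ l₃ l₄ l₅ l₆ : ℤ) : β * V ε μ e l₀ l₁ l₂ l₃ l₄ l₅ =
    ((-(l₀ - (80 * j + 22) * l₁ + (80 * j + 2) * l₂ - 2 * l₃ + (80 * j + 2) * l₄ -
      (80 * j + 22) * l₅ + l₆) : ℤ) : ℝ) + V ε μ e l₁ l₂ l₃ l₄ l₅ l₆ := by
  have he2 := e_eq h
  have h1 : β * V ε μ e l₀ l₁ l₂ l₃ l₄ l₅ = V ε μ e l₁ l₂ l₃ l₄ l₅ l₆ + (β + μ) *
      D ε e l₁ l₂ l₃ l₄ l₅ - (β * μ) * D ε e l₀ l₁ l₂ l₃ l₄ - D ε e l₂ l₃ l₄ l₅ l₆ := by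
    unfold V; ring
  rw [h1, h.hβμ, ← h.hsum]
  push_cast
  unfold D
  linear_combination ((l₁ : ℝ) + l₅ - l₂ - l₄) * h.hθ - ((l₂ : ℝ) + l₄) * he2 + (l₃ : ℝ) * h.he

lemma move {n : ℕ} {l₀ l₁ l₂ l₃ l₄ l₅ l₆ : ℤ} (hr : rem β n = V ε μ e l₀ l₁ l₂ l₃ l₄ l₅)
    (hg : Good ε μ e l₁ l₂ l₃ l₄ l₅ l₆) : rem β (n + 1) = V ε μ e l₁ l₂ l₃ l₄ l₅ l₆ := by
  have h1 := step h l₀ l₁ l₂ l₃ l₄ l₅ l₆
  obtain ⟨g1, g2⟩ := hg
  rw [rem_succ, hr]
  obtain ⟨c, hc⟩ : ∃ c : ℤ, c = (-(l₀ - (80 * j + 22) * l₁ + (80 * j + 2) * l₂ - 2 * l₃ +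
      (80 * j + 2) * l₄ - (80 * j + 22) * l₅ + l₆) : ℤ) := ⟨_, rfl⟩
  rw [← hc] at h1
  have h2 : ⌊β * V ε μ e l₀ l₁ l₂ l₃ l₄ l₅⌋ = c := by
    rw [Int.floor_eq_iff]
    constructor <;> linarith
  rw [h2, h1]; ring

lemma rem_one : rem β 1 = V ε μ e 0 0 0 0 1 1 := by
  have hj := h.hj
  have h1 : Good ε μ e 0 0 0 0 1 1 := by
    apply generic h
    · rw [abs_le]; constructor <;> omega
    · rw [abs_le]; constructor <;> omega
    · rw [abs_le]; constructor <;> omega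
    · rw [abs_le]; constructor <;> omega
    · rw [abs_le]; constructor <;> omega
    · ring_nf; omega
    · ring_nf; omega
  obtain ⟨g1, g2⟩ := h1
  have h2 : β = ((80 * j + 21 : ℤ) : ℝ) + V ε μ e 0 0 0 0 1 1 := by
    unfold V D
    push_cast
    linear_combination h.hθ - h.hsum
  rw [rem_succ]
  have h3 : rem β 0 = 1 := rfl
  rw [h3, mul_one]
  have h4 : ⌊β⌋ = 80 * j + 21 := by
    rw [Int.floor_eq_iff]
    constructor <;> linarith
  rw [h4]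
  linarith

lemma goodA (i : ℤ) (h0 : 0 ≤ i) (hi : i ≤ 2 * j - 1) :
    Good ε μ e i i i (i + 1) (i + 1) (i + 1) := by
  have hj := h.hj
  apply generic h
  · rw [abs_le]; constructor <;> omega
  · rw [abs_le]; constructor <;> omega
  · rw [abs_le]; constructor <;> omega
  · rw [abs_le]; constructor <;> omega
  · rw [abs_le]; constructor <;> omega
  · ring_nf; omega
  · ring_nf; omega

lemma goodB (i : ℤ) (h0 : 0 ≤ i) (hi : i ≤ 2 * j - 1) :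
    Good ε μ e i i (i + 1) (i + 1) (i + 1) (i + 2) := by
  have hj := h.hj
  apply generic h
  · rw [abs_le]; constructor <;> omega
  · rw [abs_le]; constructor <;> omega
  · rw [abs_le]; constructor <;> omega
  · rw [abs_le]; constructor <;> omega
  · rw [abs_le]; constructor <;> omega
  · ring_nf; omega
  · ring_nf; omega

lemma goodC (i : ℤ) (h0 : 0 ≤ i) (hi : i ≤ 2 * j - 1) :
    Good ε μ e i (i + 1) (i + 1) (i + 1) (i + 2) (i + 2) := by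
  have hj := h.hj
  rcases hi.eq_or_lt with hi' | hi'
  · subst hi'
    have := tieC h
    have e1 : 2 * j - 1 + 1 = 2 * j := by ring
    have e2 : 2 * j - 1 + 2 = 2 * j + 1 := by ring
    rw [e1, e2]; exact this
  apply generic h
  · rw [abs_le]; constructor <;> omega
  · rw [abs_le]; constructor <;> omega
  · rw [abs_le]; constructor <;> omega
  · rw [abs_le]; constructor <;> omega
  · rw [abs_le]; constructor <;> omega
  · ring_nf; omega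
  · ring_nf; omega

lemma phase (i : ℕ) (hi : (i : ℤ) ≤ 2 * j - 1) :
    rem β (3 * i + 2) = V ε μ e i i i (i + 1) (i + 1) (i + 1) := by
  induction i with
  | zero =>
    have h1 := move h (rem_one h) (goodA h 0 le_rfl (by linarith [h.hj]))
    simpa using h1
  | succ i ih =>
    have hi' : (i : ℤ) ≤ 2 * j - 1 := by push_cast at hi; omega
    have r0 := ih hi'
    have r1 := move h r0 (goodB h i (by omega) hi')
    have r2 := move h r1 (goodC h i (by omega) hi')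
    have r3 : rem β (3 * i + 2 + 1 + 1 + 1) = _ := move h r2 (l₆ := i + 2) (by
      have := goodA h (i + 1) (by omega) (by push_cast at hi; omega)
      have e1 : (i : ℤ) + 1 + 1 = i + 2 := by ring
      rw [e1] at this; exact this)
    have e1 : 3 * (i + 1) + 2 = 3 * i + 2 + 1 + 1 + 1 := by ring
    rw [e1, r3]
    push_cast
    have e2 : (i : ℤ) + 1 + 1 = i + 2 := by ring
    rw [e2]

lemma enter (J : ℕ) (hJ : (J : ℤ) = j) : rem β (6 * J + 3) =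
    V ε μ e (2 * j) (2 * j) (2 * j + 1) (2 * j + 1) (2 * j) (2 * j) := by
  have hj := h.hj
  have hJ2 : 2 ≤ J := by omega
  obtain ⟨i, hi⟩ : ∃ i : ℕ, (i : ℤ) = 2 * j - 1 := ⟨2 * J - 1, by omega⟩
  have r0 := phase h i hi.le
  have r1 := move h r0 (goodB h i (by omega) hi.le)
  have r2 := move h r1 (goodC h i (by omega) hi.le)
  have e1 : (i : ℤ) + 1 = 2 * j := by omega
  have e2 : (i : ℤ) + 2 = 2 * j + 1 := by omega
  rw [e1, e2] at r2
  have r3 := move h r2 (tieA h)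
  have r4 := move h r3 (tie2 h)
  have e3 : 6 * J + 3 = 3 * i + 2 + 1 + 1 + 1 + 1 := by omega
  rw [e3, r4]

lemma in_cycle (J : ℕ) (hJ : (J : ℤ) = j) (n : ℕ) (hn : 6 * J + 3 ≤ n) :
    ∃ l₀ l₁ l₂ l₃ l₄ l₅ : ℤ, Cyc j l₀ l₁ l₂ l₃ l₄ l₅ ∧ rem β n = V ε μ e l₀ l₁ l₂ l₃ l₄ l₅ := by
  induction n, hn using Nat.le_induction with
  | base => exact ⟨_, _, _, _, _, _, Cyc.t2, enter h J hJ⟩
  | succ n hn ih =>
    obtain ⟨l₀, l₁, l₂, l₃, l₄, l₅, hc, hr⟩ := ih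
    obtain ⟨l₆, hc'⟩ := hc.next h.hj
    exact ⟨_, _, _, _, _, _, hc', move h hr (hc'.good h)⟩

end

lemma Cyc.bounded {j : ℤ} (hj : 2 ≤ j) {l₀ l₁ l₂ l₃ l₄ l₅ : ℤ} (h : Cyc j l₀ l₁ l₂ l₃ l₄ l₅) :
    ∀ i, (fun _ => -2 : Fin 6 → ℤ) i ≤ ![l₀, l₁, l₂, l₃, l₄, l₅] i ∧
      ![l₀, l₁, l₂, l₃, l₄, l₅] i ≤ (fun _ => 2 * j + 1 : Fin 6 → ℤ) i := by
  intro i
  cases h <;> fin_cases i <;> simp <;> omega

lemma Cyc.not_three {j l₀ l₁ l₂ l₃ l₄ l₅ : ℤ} (h : Cyc j l₀ l₁ l₂ l₃ l₄ l₅) :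
    ¬ (l₀ = l₁ ∧ l₁ = l₂) := by
  rintro ⟨h1, h2⟩
  cases h <;> omega

/-- the digits are eventually periodic -/
lemma eventually_periodic {j : ℤ} {β θ ε μ e : ℝ} (h : Par j β θ ε μ e) (J : ℕ)
    (hJ : (J : ℤ) = j) : ∃ m p, PeriodicFrom β m p := by
  have hfin : (Set.Icc (fun _ => -2 : Fin 6 → ℤ) (fun _ => 2 * j + 1)).Finite := Set.finite_Icc _ _
  have himg : ((fun v : Fin 6 → ℤ => V ε μ e (v 0) (v 1) (v 2) (v 3) (v 4) (v 5)) ''
      (Set.Icc (fun _ => -2 : Fin 6 → ℤ) (fun _ => 2 * j + 1))).Finite := hfin.image _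
  have hmaps : Set.MapsTo (fun n : ℕ => rem β n) (Set.Ici (6 * J + 3))
      ((fun v : Fin 6 → ℤ => V ε μ e (v 0) (v 1) (v 2) (v 3) (v 4) (v 5)) ''
      (Set.Icc (fun _ => -2 : Fin 6 → ℤ) (fun _ => 2 * j + 1))) := by
    intro n hn
    obtain ⟨l₀, l₁, l₂, l₃, l₄, l₅, hc, hr⟩ := in_cycle h J hJ n hn
    have hb := hc.bounded h.hj
    refine ⟨![l₀, l₁, l₂, l₃, l₄, l₅], ⟨fun i => (hb i).1, fun i => (hb i).2⟩, ?_⟩
    exact hr.symm
  obtain ⟨x, -, y, -, hxy, hval⟩ :=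
    (Set.Ici_infinite (6 * J + 3)).exists_ne_map_eq_of_mapsTo hmaps himg
  wlog hlt : x < y generalizing x y
  · exact this y x hxy.symm hval.symm (by omega)
  have hper : ∀ k : ℕ, rem β (y + k) = rem β (x + k) := by
    intro k
    induction k with
    | zero => exact hval.symm
    | succ k ih => rw [← add_assoc, ← add_assoc, rem_succ, rem_succ, ih]
  refine ⟨x, y - x, by omega, ?_⟩
  intro n hn
  unfold dig
  have e1 : n + (y - x) - 1 = y + (n - 1 - x) := by omega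
  have e2 : n - 1 = x + (n - 1 - x) := by omega
  rw [e1, hper, ← e2]

/-- periodic digits give periodic remainders -/
lemma rem_of_dig {β : ℝ} (hβ : 1 < β) {m p : ℕ} (h : PeriodicFrom β m p) (n : ℕ) (hn : m ≤ n) :
    rem β (n + p) = rem β n := by
  have hbound : ∀ k : ℕ, 0 ≤ rem β k ∧ rem β k ≤ 1 := by
    intro k
    cases k with
    | zero =>
      have : rem β 0 = 1 := rfl
      rw [this]; norm_num
    | succ k =>
      rw [rem_succ]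
      constructor
      · linarith [Int.floor_le (β * rem β k)]
      · linarith [Int.lt_floor_add_one (β * rem β k)]
  have hd : ∀ k : ℕ, rem β (n + k + p) - rem β (n + k) = β ^ k * (rem β (n + p) - rem β n) := by
    intro k
    induction k with
    | zero => simp
    | succ k ih =>
      have h1 := h.2 (n + k + 1) (by omega)
      unfold dig at h1
      have e1 : n + k + 1 + p - 1 = n + k + p := by omega
      have e2 : n + k + 1 - 1 = n + k := by omega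
      rw [e1, e2] at h1
      have e3 : n + (k + 1) + p = n + k + p + 1 := by ring
      have e4 : n + (k + 1) = n + k + 1 := by ring
      rw [e3, e4, rem_succ, rem_succ, h1, pow_succ]
      linear_combination β * ih
  by_contra hne
  have hpos : 0 < |rem β (n + p) - rem β n| := abs_pos.2 (sub_ne_zero.2 hne)
  obtain ⟨k, hk⟩ := pow_unbounded_of_one_lt (2 / |rem β (n + p) - rem β n|) hβ
  have h1 := hd k
  have h2 : |rem β (n + k + p) - rem β (n + k)| ≤ 1 := by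
    rw [abs_le]
    constructor <;> linarith [(hbound (n + k + p)).1, (hbound (n + k + p)).2,
      (hbound (n + k)).1, (hbound (n + k)).2]
  rw [h1, abs_mul, abs_of_pos (pow_pos (by linarith) k)] at h2
  rw [div_lt_iff₀ hpos] at hk
  linarith

/-! ### The minimal polynomial -/

/-- the minimal polynomial, for `j = 3 k + 2` -/
noncomputable def P (j : ℤ) : ℤ[X] :=
  X ^ 6 - C (80 * j + 22) * X ^ 5 + C (80 * j + 2) * X ^ 4 - 2 * X ^ 3 + C (80 * j + 2) * X ^ 2 -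
    C (80 * j + 22) * X + 1

lemma P_monic (j : ℤ) : (P j).Monic := by unfold P; monicity!

lemma P_natDegree (j : ℤ) : (P j).natDegree = 6 := by unfold P; compute_degree!

/-- the reduction modulo `3` -/
noncomputable def P3 : (ZMod 3)[X] := X ^ 6 + X ^ 5 + X ^ 3 + X + 1

lemma P_map (k : ℤ) : (P (3 * k + 2)).map (Int.castRingHom (ZMod 3)) = P3 := by
  unfold P P3
  simp only [Polynomial.map_sub, Polynomial.map_add, Polynomial.map_mul, Polynomial.map_pow,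
    Polynomial.map_X, Polynomial.map_one, Polynomial.map_ofNat, Polynomial.map_C]
  have h3 : (3 : ZMod 3) = 0 := rfl
  have e1 : (Int.castRingHom (ZMod 3)) (80 * (3 * k + 2) + 22) = -1 := by
    simp only [eq_intCast]
    push_cast
    linear_combination (80 * (k : ZMod 3) + 61) * h3
  have e2 : (Int.castRingHom (ZMod 3)) (80 * (3 * k + 2) + 2) = 0 := by
    simp only [eq_intCast]
    push_cast
    linear_combination (80 * (k : ZMod 3) + 54) * h3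
  have e3 : (2 : (ZMod 3)[X]) = -1 := by
    rw [show (2 : (ZMod 3)[X]) = C 2 from rfl, show (2 : ZMod 3) = -1 from rfl, C_neg, C_1]
  rw [e1, e2, e3]
  simp only [C_neg, C_1, C_0]
  ring

lemma P3_monic : P3.Monic := by unfold P3; monicity!

lemma P3_natDegree : P3.natDegree = 6 := by unfold P3; compute_degree!

lemma coeff_P3 (n : ℕ) : P3.coeff n = if n = 0 ∨ n = 1 ∨ n = 3 ∨ n = 5 ∨ n = 6 then 1 else 0 := by
  unfold P3
  simp only [coeff_add, coeff_X_pow, coeff_one, coeff_X]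
  rcases Nat.lt_or_ge n 7 with h | h
  · interval_cases n <;> simp
  · have h0 : n ≠ 0 := by omega
    have h1 : n ≠ 1 := by omega
    have h3 : n ≠ 3 := by omega
    have h5 : n ≠ 5 := by omega
    have h6 : n ≠ 6 := by omega
    simp [h0, h1, h3, h5, h6, Ne.symm h1]

lemma dec1 : ∀ p : (Fin 5 → ZMod 3) × (Fin 1 → ZMod 3),
    ¬ (p.1 0 * p.2 0 = 1 ∧ p.1 0 + p.1 1 * p.2 0 = 1 ∧ p.1 1 + p.1 2 * p.2 0 = 0 ∧
      p.1 2 + p.1 3 * p.2 0 = 1 ∧ p.1 3 + p.1 4 * p.2 0 = 0 ∧ p.1 4 + p.2 0 = 1) := by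
  decide +kernel

lemma dec2 : ∀ p : (Fin 4 → ZMod 3) × (Fin 2 → ZMod 3),
    ¬ (p.1 0 * p.2 0 = 1 ∧ p.1 0 * p.2 1 + p.1 1 * p.2 0 = 1 ∧
      p.1 0 + p.1 1 * p.2 1 + p.1 2 * p.2 0 = 0 ∧ p.1 1 + p.1 2 * p.2 1 + p.1 3 * p.2 0 = 1 ∧
      p.1 2 + p.1 3 * p.2 1 + p.2 0 = 0 ∧ p.1 3 + p.2 1 = 1) := by
  decide +kernel

lemma dec3 : ∀ p : (Fin 3 → ZMod 3) × (Fin 3 → ZMod 3),
    ¬ (p.1 0 * p.2 0 = 1 ∧ p.1 0 * p.2 1 + p.1 1 * p.2 0 = 1 ∧
      p.1 0 * p.2 2 + p.1 1 * p.2 1 + p.1 2 * p.2 0 = 0 ∧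
      p.1 0 + p.1 1 * p.2 2 + p.1 2 * p.2 1 + p.2 0 = 1 ∧
      p.1 1 + p.1 2 * p.2 2 + p.2 1 = 0 ∧ p.1 2 + p.2 2 = 1) := by
  decide +kernel

lemma P3_irreducible : Irreducible P3 := by
  rw [P3_monic.irreducible_iff_natDegree']
  refine ⟨fun h => ?_, ?_⟩
  · have := P3_natDegree
    rw [h] at this
    simp at this
  intro f g hf hg hfg hmem
  rw [P3_natDegree, Finset.mem_Ioc] at hmem
  have hdeg : f.natDegree + g.natDegree = 6 := by
    rw [← hf.natDegree_mul hg, hfg, P3_natDegree]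
  have hc : ∀ n, (f * g).coeff n = if n = 0 ∨ n = 1 ∨ n = 3 ∨ n = 5 ∨ n = 6 then 1 else 0 := by
    intro n; rw [hfg, coeff_P3]
  have hcf : ∀ n, f.natDegree < n → f.coeff n = 0 := fun n hn => coeff_eq_zero_of_natDegree_lt hn
  have hcg : ∀ n, g.natDegree < n → g.coeff n = 0 := fun n hn => coeff_eq_zero_of_natDegree_lt hn
  have hlf : f.coeff f.natDegree = 1 := hf.coeff_natDegree
  have hlg : g.coeff g.natDegree = 1 := hg.coeff_natDegree
  have h0 := hc 0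
  have h1 := hc 1
  have h2 := hc 2
  have h3 := hc 3
  have h4 := hc 4
  have h5 := hc 5
  simp only [coeff_mul, Finset.Nat.sum_antidiagonal_eq_sum_range_succ_mk,
    Finset.sum_range_succ, Finset.sum_range_zero, zero_add] at h0 h1 h2 h3 h4 h5
  norm_num at h0 h1 h2 h3 h4 h5
  have hg3 : g.natDegree = 1 ∨ g.natDegree = 2 ∨ g.natDegree = 3 := by omega
  rcases hg3 with hg3 | hg3 | hg3
  · have hf3 : f.natDegree = 5 := by omega
    rw [hf3] at hlf hcf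
    rw [hg3] at hlg hcg
    have g2 := hcg 2 (by norm_num)
    have g3 := hcg 3 (by norm_num)
    have g4 := hcg 4 (by norm_num)
    have g5 := hcg 5 (by norm_num)
    simp only [hlf, hlg, g2, g3, g4, g5, mul_zero, mul_one, zero_add, one_mul] at h0 h1 h2 h3 h4 h5
    refine dec1 (![f.coeff 0, f.coeff 1, f.coeff 2, f.coeff 3, f.coeff 4], ![g.coeff 0]) ?_
    exact ⟨h0, h1, h2, h3, h4, h5⟩
  · have hf3 : f.natDegree = 4 := by omega
    rw [hf3] at hlf hcf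
    rw [hg3] at hlg hcg
    have f5 := hcf 5 (by norm_num)
    have g3 := hcg 3 (by norm_num)
    have g4 := hcg 4 (by norm_num)
    have g5 := hcg 5 (by norm_num)
    simp only [hlf, hlg, f5, g3, g4, g5, mul_zero, zero_mul, add_zero, mul_one, zero_add, one_mul]
      at h0 h1 h2 h3 h4 h5
    refine dec2 (![f.coeff 0, f.coeff 1, f.coeff 2, f.coeff 3], ![g.coeff 0, g.coeff 1]) ?_
    exact ⟨h0, h1, h2, h3, h4, h5⟩
  · have hf3 : f.natDegree = 3 := by omega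
    rw [hf3] at hlf hcf
    rw [hg3] at hlg hcg
    have f4 := hcf 4 (by norm_num)
    have f5 := hcf 5 (by norm_num)
    have g4 := hcg 4 (by norm_num)
    have g5 := hcg 5 (by norm_num)
    simp only [hlf, hlg, f4, f5, g4, g5, mul_zero, zero_mul, add_zero, mul_one, zero_add, one_mul]
      at h0 h1 h2 h3 h4 h5
    refine dec3 (![f.coeff 0, f.coeff 1, f.coeff 2], ![g.coeff 0, g.coeff 1, g.coeff 2]) ?_
    exact ⟨h0, h1, h2, h3, h4, h5⟩

lemma P_irreducible (k : ℤ) : Irreducible (P (3 * k + 2)) := by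
  apply (P_monic _).irreducible_of_irreducible_map (Int.castRingHom (ZMod 3))
  rw [P_map]; exact P3_irreducible

lemma aeval_sextic {R : Type*} [CommRing R] (a b : ℤ) (x : R) :
    aeval x (X ^ 6 - C a * X ^ 5 + C b * X ^ 4 - 2 * X ^ 3 + C b * X ^ 2 - C a * X + 1 : ℤ[X]) =
    x ^ 6 - a * x ^ 5 + b * x ^ 4 - 2 * x ^ 3 + b * x ^ 2 - a * x + 1 := by
  have h2 : aeval x (2 : ℤ[X]) = 2 := map_ofNat _ 2
  simp [h2]

lemma aeval_quintic {R : Type*} [CommRing R] (g₅ g₄ g₃ g₂ g₁ g₀ : ℤ) (x : R) :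
    aeval x (C g₅ * X ^ 5 + C g₄ * X ^ 4 + C g₃ * X ^ 3 + C g₂ * X ^ 2 + C g₁ * X + C g₀ : ℤ[X]) =
    g₅ * x ^ 5 + g₄ * x ^ 4 + g₃ * x ^ 3 + g₂ * x ^ 2 + g₁ * x + g₀ := by
  simp

lemma coeff_quintic (g₅ g₄ g₃ g₂ g₁ g₀ : ℤ) :
    (C g₅ * X ^ 5 + C g₄ * X ^ 4 + C g₃ * X ^ 3 + C g₂ * X ^ 2 + C g₁ * X + C g₀ : ℤ[X]).coeff 5 =
      g₅ ∧
    (C g₅ * X ^ 5 + C g₄ * X ^ 4 + C g₃ * X ^ 3 + C g₂ * X ^ 2 + C g₁ * X + C g₀ : ℤ[X]).coeff 4 =
      g₄ ∧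
    (C g₅ * X ^ 5 + C g₄ * X ^ 4 + C g₃ * X ^ 3 + C g₂ * X ^ 2 + C g₁ * X + C g₀ : ℤ[X]).coeff 3 =
      g₃ := by
  refine ⟨?_, ?_, ?_⟩ <;>
    simp only [coeff_add, coeff_C_mul, coeff_X_pow, coeff_X, coeff_C] <;> norm_num

lemma natDegree_quintic (g₅ g₄ g₃ g₂ g₁ g₀ : ℤ) :
    (C g₅ * X ^ 5 + C g₄ * X ^ 4 + C g₃ * X ^ 3 + C g₂ * X ^ 2 + C g₁ * X + C g₀ :
      ℤ[X]).natDegree ≤ 5 := by
  compute_degree

/-! ### The conjugates -/

lemma ivt (t a b : ℝ) (hab : a ≤ b)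
    (h : (0 ≤ a ^ 3 - t * a ^ 2 + (t - 23) * a + (2 * t - 2) ∧
        b ^ 3 - t * b ^ 2 + (t - 23) * b + (2 * t - 2) ≤ 0) ∨
      (a ^ 3 - t * a ^ 2 + (t - 23) * a + (2 * t - 2) ≤ 0 ∧
        0 ≤ b ^ 3 - t * b ^ 2 + (t - 23) * b + (2 * t - 2))) :
    ∃ y : ℝ, a ≤ y ∧ y ≤ b ∧ y ^ 3 - t * y ^ 2 + (t - 23) * y + (2 * t - 2) = 0 := by
  have hcont : ContinuousOn (fun x : ℝ => x ^ 3 - t * x ^ 2 + (t - 23) * x + (2 * t - 2))
      (Set.Icc a b) := by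
    fun_prop
  rcases h with h | h
  · obtain ⟨x, hx, hx'⟩ := intermediate_value_Icc' hab hcont
      (show (0 : ℝ) ∈ Set.Icc _ _ from ⟨h.2, h.1⟩)
    exact ⟨x, hx.1, hx.2, hx'⟩
  · obtain ⟨x, hx, hx'⟩ := intermediate_value_Icc hab hcont
      (show (0 : ℝ) ∈ Set.Icc _ _ from ⟨h.1, h.2⟩)
    exact ⟨x, hx.1, hx.2, hx'⟩

/-- a complex number with `z + 1/z` real of absolute value less than `2` has norm one -/
lemma norm_one_of (z : ℂ) (y : ℝ) (hz : z ^ 2 - y * z + 1 = 0) (hy : y ^ 2 < 4) : ‖z‖ = 1 := by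
  have hre := congrArg Complex.re hz
  have him := congrArg Complex.im hz
  simp only [pow_two, Complex.add_re, Complex.sub_re, Complex.mul_re, Complex.ofReal_re,
    Complex.ofReal_im, Complex.one_re, Complex.zero_re, Complex.add_im, Complex.sub_im,
    Complex.mul_im, Complex.one_im, Complex.zero_im, zero_mul, sub_zero, add_zero] at hre him
  have h1 : z.im * (2 * z.re - y) = 0 := by linear_combination him
  have hn : z.re ^ 2 + z.im ^ 2 = 1 := by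
    rcases mul_eq_zero.1 h1 with h2 | h2
    · exfalso
      rw [h2] at hre
      nlinarith [sq_nonneg (2 * z.re - y)]
    · have h3 : y = 2 * z.re := by linarith
      rw [h3] at hre
      nlinarith
  have h4 : ‖z‖ ^ 2 = 1 := by
    rw [Complex.sq_norm, Complex.normSq_apply]
    nlinarith
  have h5 := norm_nonneg z
  nlinarith

lemma middle_roots (t : ℝ) (ht : 181 ≤ t) :
    (∃ y : ℝ, 0 < y ∧ y < 2 ∧ y ^ 3 - t * y ^ 2 + (t - 23) * y + (2 * t - 2) = 0) ∧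
    (∃ y : ℝ, -2 < y ∧ y < 0 ∧ y ^ 3 - t * y ^ 2 + (t - 23) * y + (2 * t - 2) = 0) := by
  constructor
  · obtain ⟨y, h1, h2, h3⟩ := ivt t 0 2 (by norm_num) (Or.inl ⟨by linarith, by linarith⟩)
    have h4 : y ≠ 0 := by rintro rfl; linarith
    have h5 : y ≠ 2 := by rintro rfl; linarith
    exact ⟨y, lt_of_le_of_ne h1 (Ne.symm h4), lt_of_le_of_ne h2 h5, h3⟩
  · obtain ⟨y, h1, h2, h3⟩ := ivt t (-2) 0 (by norm_num) (Or.inr ⟨by linarith, by linarith⟩)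
    have h4 : y ≠ -2 := by rintro rfl; linarith
    have h5 : y ≠ 0 := by rintro rfl; linarith
    exact ⟨y, lt_of_le_of_ne h1 (Ne.symm h4), lt_of_le_of_ne h2 h5, h3⟩

section

variable {j : ℤ} {β θ ε μ e : ℝ} (h : Par j β θ ε μ e)

include h

lemma theta_root : θ ^ 3 - (80 * j + 22) * θ ^ 2 + ((80 * j + 22) - 23) * θ +
    (2 * (80 * j + 22) - 2) = 0 := by
  have h1 : (80 * (j : ℝ) + 22) = θ + 1 - ε := by rw [h.hθ]; ring
  rw [h1]
  linear_combination h.hrel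

lemma beta_root : β ^ 6 - (80 * j + 22) * β ^ 5 + (80 * j + 2) * β ^ 4 - 2 * β ^ 3 +
    (80 * j + 2) * β ^ 2 - (80 * j + 22) * β + 1 = 0 := by
  have h1 := theta_root h
  have hb : β ≠ 0 := by linarith [h.hβ]
  have h2 : μ = β⁻¹ := eq_inv_of_mul_eq_one_right h.hβμ
  rw [h.hsum, h2] at h1
  field_simp at h1
  linear_combination h1

lemma conj_cases (z : ℂ) (hz : z ^ 6 - (80 * j + 22) * z ^ 5 + (80 * j + 2) * z ^ 4 - 2 * z ^ 3 +
    (80 * j + 2) * z ^ 2 - (80 * j + 22) * z + 1 = 0) : z = β ∨ ‖z‖ ≤ 1 := by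
  have hθ1 := f1 h
  have hjR : (2 : ℝ) ≤ j := by exact_mod_cast h.hj
  have hβ1 := h.hβ
  have hβ0 : β ≠ 0 := by positivity
  obtain ⟨t, ht⟩ : ∃ t : ℝ, t = 80 * j + 22 := ⟨_, rfl⟩
  have ht181 : 181 ≤ t := by rw [ht]; linarith
  obtain ⟨⟨y₂, ha₂, hb₂, hy₂⟩, ⟨y₃, ha₃, hb₃, hy₃⟩⟩ := middle_roots t ht181
  have hθr := theta_root h
  rw [← ht] at hθr
  have d12 : θ ^ 2 + θ * y₂ + y₂ ^ 2 - t * (θ + y₂) + (t - 23) = 0 := by
    have : (θ - y₂) * (θ ^ 2 + θ * y₂ + y₂ ^ 2 - t * (θ + y₂) + (t - 23)) = 0 := by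
      linear_combination hθr - hy₂
    exact (mul_eq_zero.1 this).resolve_left (by intro h; linarith)
  have d13 : θ ^ 2 + θ * y₃ + y₃ ^ 2 - t * (θ + y₃) + (t - 23) = 0 := by
    have : (θ - y₃) * (θ ^ 2 + θ * y₃ + y₃ ^ 2 - t * (θ + y₃) + (t - 23)) = 0 := by
      linear_combination hθr - hy₃
    exact (mul_eq_zero.1 this).resolve_left (by intro h; linarith)
  have s1 : θ + y₂ + y₃ = t := by
    have : (y₂ - y₃) * (θ + y₂ + y₃ - t) = 0 := by linear_combination d12 - d13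
    linarith [(mul_eq_zero.1 this).resolve_left (by intro h; linarith)]
  have hz0 : z ≠ 0 := by
    rintro rfl
    norm_num at hz
  obtain ⟨y, hy⟩ : ∃ y, y = z + z⁻¹ := ⟨_, rfl⟩
  have htC : (80 * (j : ℂ) + 22) = (t : ℂ) := by rw [ht]; push_cast; rfl
  have htC2 : (80 * (j : ℂ) + 2) = (t : ℂ) - 20 := by rw [ht]; push_cast; ring
  rw [htC, htC2] at hz
  have hyz : y ^ 3 - t * y ^ 2 + (t - 23) * y + (2 * t - 2) = 0 := by
    have : z ^ 3 * (y ^ 3 - t * y ^ 2 + (t - 23) * y + (2 * t - 2)) = 0 := by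
      rw [hy]
      field_simp
      linear_combination hz
    exact (mul_eq_zero.1 this).resolve_left (pow_ne_zero 3 hz0)
  have hfac : (y - θ) * ((y - y₂) * (y - y₃)) = 0 := by
    have c1 : (θ : ℂ) ^ 3 - t * θ ^ 2 + (t - 23) * θ + (2 * t - 2) = 0 := by exact_mod_cast hθr
    have c2 : (θ : ℂ) ^ 2 + θ * y₂ + y₂ ^ 2 - t * (θ + y₂) + (t - 23) = 0 := by
      exact_mod_cast d12
    have c3 : (θ : ℂ) + y₂ + y₃ = t := by exact_mod_cast s1
    have c4 : (y₃ : ℂ) = t - θ - y₂ := by linear_combination c3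
    rw [c4]
    linear_combination hyz - c1 + (-y + θ) * c2
  have hzy : z ^ 2 - y * z + 1 = 0 := by
    rw [hy]; field_simp; ring
  rcases mul_eq_zero.1 hfac with h | h'
  · have hyy : y = θ := sub_eq_zero.1 h
    rename_i hpar
    have h5 : (z - β) * (z * β - 1) = 0 := by
      have hb : (β : ℂ) ≠ 0 := by exact_mod_cast hβ0
      have h6 : (θ : ℂ) = β + μ := by rw [hpar.hsum]; push_cast; rfl
      have h8 : (β : ℂ) * μ = 1 := by exact_mod_cast hpar.hβμ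
      rw [hyy, h6] at hzy
      linear_combination β * hzy + z * h8
    rcases mul_eq_zero.1 h5 with h6 | h6
    · left; exact sub_eq_zero.1 h6
    · right
      have h7 : z * β = 1 := sub_eq_zero.1 h6
      have h8 := congrArg norm h7
      rw [norm_mul, norm_one, Complex.norm_real, Real.norm_eq_abs, abs_of_pos (by linarith)] at h8
      have := norm_nonneg z
      nlinarith
  · right
    rcases mul_eq_zero.1 h' with h' | h'
    · have hyy : y = y₂ := sub_eq_zero.1 h'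
      rw [hyy] at hzy
      exact (norm_one_of z y₂ hzy (by nlinarith)).le
    · have hyy : y = y₃ := sub_eq_zero.1 h'
      rw [hyy] at hzy
      exact (norm_one_of z y₃ hzy (by nlinarith)).le

lemma exists_conj : ∃ z : ℂ, z ^ 6 - (80 * j + 22) * z ^ 5 + (80 * j + 2) * z ^ 4 - 2 * z ^ 3 +
    (80 * j + 2) * z ^ 2 - (80 * j + 22) * z + 1 = 0 ∧ ‖z‖ = 1 := by
  have hjR : (2 : ℝ) ≤ j := by exact_mod_cast h.hj
  obtain ⟨t, ht⟩ : ∃ t : ℝ, t = 80 * j + 22 := ⟨_, rfl⟩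
  have ht181 : 181 ≤ t := by rw [ht]; linarith
  obtain ⟨⟨y₂, ha₂, hb₂, hy₂⟩, -⟩ := middle_roots t ht181
  obtain ⟨z, hz⟩ : ∃ z : ℂ, z ^ 2 - y₂ * z + 1 = 0 := by
    obtain ⟨s, hs⟩ := IsAlgClosed.exists_pow_nat_eq ((y₂ : ℂ) ^ 2 - 4) (n := 2) (by norm_num)
    refine ⟨(y₂ + s) / 2, ?_⟩
    linear_combination hs / 4
  refine ⟨z, ?_, norm_one_of z y₂ hz (by nlinarith)⟩
  have htC : (80 * (j : ℂ) + 22) = (t : ℂ) := by rw [ht]; push_cast; rfl
  have htC2 : (80 * (j : ℂ) + 2) = (t : ℂ) - 20 := by rw [ht]; push_cast; ring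
  rw [htC, htC2]
  have c : (y₂ : ℂ) ^ 3 - t * y₂ ^ 2 + (t - 23) * y₂ + (2 * t - 2) = 0 := by exact_mod_cast hy₂
  have hz2 : z ^ 2 + 1 = y₂ * z := by linear_combination hz
  have key : z ^ 6 - t * z ^ 5 + (t - 20) * z ^ 4 - 2 * z ^ 3 + (t - 20) * z ^ 2 - t * z + 1 =
      (z ^ 2 + 1) ^ 3 - t * (z ^ 2 + 1) ^ 2 * z + (t - 23) * (z ^ 2 + 1) * z ^ 2 +
        (2 * t - 2) * z ^ 3 := by ring
  rw [key, hz2]
  linear_combination z ^ 3 * c

lemma aeval_P : aeval β (P j) = 0 := by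
  unfold P
  rw [aeval_sextic]
  push_cast
  exact beta_root h

lemma integral_beta : IsIntegral ℤ β := ⟨P j, P_monic j, by
  have := aeval_P h
  rwa [aeval_def] at this⟩

end

lemma aeval_P_complex (j : ℤ) (z : ℂ) : aeval z (P j) =
    z ^ 6 - (80 * j + 22) * z ^ 5 + (80 * j + 2) * z ^ 4 - 2 * z ^ 3 +
    (80 * j + 2) * z ^ 2 - (80 * j + 22) * z + 1 := by
  unfold P
  rw [aeval_sextic]
  push_cast
  rfl

section

variable {k : ℤ} {β θ ε μ e : ℝ} (h : Par (3 * k + 2) β θ ε μ e)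

include h

lemma minpoly_int : minpoly ℤ β = P (3 * k + 2) := by
  have hint := integral_beta h
  have hdvd := minpoly.isIntegrallyClosed_dvd hint (aeval_P h)
  have hirr := P_irreducible k
  have hassoc : Associated (minpoly ℤ β) (P (3 * k + 2)) := by
    refine (minpoly.irreducible hint).associated_of_dvd hirr hdvd
  exact Polynomial.eq_of_monic_of_associated (minpoly.monic hint) (P_monic _) hassoc

lemma minpoly_rat : minpoly ℚ β = (P (3 * k + 2)).map (algebraMap ℤ ℚ) := by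
  rw [minpoly.isIntegrallyClosed_eq_field_fractions' ℚ (integral_beta h), minpoly_int h]

lemma aeval_minpoly (z : ℂ) : aeval z (minpoly ℚ β) = aeval z (P (3 * k + 2)) := by
  rw [minpoly_rat h, aeval_map_algebraMap]

lemma salem : IsSalem β where
  one_lt := h.hβ
  integral := integral_beta h
  conj_le := by
    intro z hz hne
    rw [aeval_minpoly h, aeval_P_complex] at hz
    exact (conj_cases h z hz).resolve_left hne
  conj_eq := by
    obtain ⟨z, hz, hz'⟩ := exists_conj h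
    exact ⟨z, by rw [aeval_minpoly h, aeval_P_complex, hz], hz'⟩

lemma degree_six : (minpoly ℚ β).natDegree = 6 := by
  rw [minpoly_rat h, (P_monic _).natDegree_map, P_natDegree]

/-- the window is determined by its value -/
lemma indep (d₀ d₁ d₂ d₃ d₄ d₅ : ℤ) (hv : V ε μ e d₀ d₁ d₂ d₃ d₄ d₅ = 0) :
    d₀ = 0 ∧ d₁ = 0 ∧ d₂ = 0 := by
  obtain ⟨j, hj⟩ : ∃ j : ℤ, j = 3 * k + 2 := ⟨_, rfl⟩
  have he2 := e_eq h
  have hθ := h.hθ
  have hsum := h.hsum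
  have hβμ := h.hβμ
  have he := h.he
  rw [← hj] at hθ
  obtain ⟨g₅, hg₅⟩ : ∃ g : ℤ, g = d₀ := ⟨_, rfl⟩
  obtain ⟨g₄, hg₄⟩ : ∃ g : ℤ, g = d₁ - (80 * j + 22) * d₀ := ⟨_, rfl⟩
  obtain ⟨g₃, hg₃⟩ : ∃ g : ℤ, g = d₂ - (80 * j + 22) * d₁ + (80 * j + 2) * d₀ := ⟨_, rfl⟩
  obtain ⟨g₂, hg₂⟩ : ∃ g : ℤ, g = d₃ - (80 * j + 22) * d₂ + (80 * j + 2) * d₁ - 2 * d₀ := ⟨_, rfl⟩
  obtain ⟨g₁, hg₁⟩ : ∃ g : ℤ, g = d₄ - (80 * j + 22) * d₃ + (80 * j + 2) * d₂ - 2 * d₁ +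
    (80 * j + 2) * d₀ := ⟨_, rfl⟩
  obtain ⟨g₀, hg₀⟩ : ∃ g : ℤ, g = d₅ - (80 * j + 22) * d₄ + (80 * j + 2) * d₃ - 2 * d₂ +
    (80 * j + 2) * d₁ - (80 * j + 22) * d₀ := ⟨_, rfl⟩
  obtain ⟨G, hG⟩ : ∃ G : ℤ[X], G = C g₅ * X ^ 5 + C g₄ * X ^ 4 + C g₃ * X ^ 3 + C g₂ * X ^ 2 +
    C g₁ * X + C g₀ := ⟨_, rfl⟩
  have q4 : ε - 1 - μ = β - (80 * j + 22) := by linear_combination hsum - hθ
  have q3 : e - μ * (ε - 1) = β ^ 2 - (80 * j + 22) * β + (80 * j + 2) := by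
    linear_combination β * q4 + he2 + hθ + hβμ + (ε - 1) * hsum
  have q2 : ε - 1 - μ * e = β ^ 3 - (80 * j + 22) * β ^ 2 + (80 * j + 2) * β - 2 := by
    linear_combination β * q3 - he + e * hsum + (ε - 1) * hβμ
  have q1 : 1 - μ * (ε - 1) = β ^ 4 - (80 * j + 22) * β ^ 3 + (80 * j + 2) * β ^ 2 - 2 * β +
      (80 * j + 2) := by
    linear_combination β * q2 + he2 + (ε - 1) * hsum + hθ + e * hβμ
  have q0 : -μ = β ^ 5 - (80 * j + 22) * β ^ 4 + (80 * j + 2) * β ^ 3 - 2 * β ^ 2 +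
      (80 * j + 2) * β - (80 * j + 22) := by
    linear_combination β * q1 + hsum - hθ + (ε - 1) * hβμ
  have hGβ : aeval β G = 0 := by
    rw [hG, ← hv, aeval_quintic, hg₅, hg₄, hg₃, hg₂, hg₁, hg₀]
    push_cast
    unfold V D
    linear_combination (-(d₀ : ℝ)) * q0 - d₁ * q1 - d₂ * q2 - d₃ * q3 - d₄ * q4
  have hdeg : G.natDegree ≤ 5 := by
    rw [hG]; exact natDegree_quintic _ _ _ _ _ _
  have hG0 : G = 0 := by
    by_contra hne
    have h1 := minpoly.isIntegrallyClosed_dvd (integral_beta h) hGβ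
    have h2 := natDegree_le_of_dvd h1 hne
    rw [minpoly_int h, P_natDegree] at h2
    omega
  obtain ⟨c5, c4, c3⟩ := coeff_quintic g₅ g₄ g₃ g₂ g₁ g₀
  rw [← hG] at c5 c4 c3
  rw [hg₅] at c5
  rw [hg₄] at c4
  rw [hg₃] at c3
  rw [hG0, coeff_zero] at c5 c4 c3
  have e0 : d₀ = 0 := c5.symm
  rw [e0] at c4 c3
  have e1 : d₁ = 0 := by linarith
  rw [e1] at c3
  exact ⟨e0, e1, by linarith⟩

end

lemma V_sub (ε μ e : ℝ) (l₀ l₁ l₂ l₃ l₄ l₅ k₀ k₁ k₂ k₃ k₄ k₅ : ℤ) :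
    V ε μ e (l₀ - k₀) (l₁ - k₁) (l₂ - k₂) (l₃ - k₃) (l₄ - k₄) (l₅ - k₅) =
    V ε μ e l₀ l₁ l₂ l₃ l₄ l₅ - V ε μ e k₀ k₁ k₂ k₃ k₄ k₅ := by
  unfold V D
  push_cast
  ring

/-- lower bound for the preperiod -/
lemma lower {k : ℤ} {β θ ε μ e : ℝ} (h : Par (3 * k + 2) β θ ε μ e) (J : ℕ)
    (hJ : (J : ℤ) = 3 * k + 2) {m p : ℕ} (hper : PeriodicFrom β m p) : 6 * J - 1 < m := by
  by_contra hm
  push Not at hm
  have hj := h.hj
  obtain ⟨i, hi⟩ : ∃ i : ℕ, (i : ℤ) = 2 * (3 * k + 2) - 1 := ⟨2 * J - 1, by omega⟩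
  have r0 := phase h i hi.le
  have hn : m ≤ 3 * i + 2 := by omega
  have hall : ∀ c : ℕ, rem β (3 * i + 2 + c * p) = rem β (3 * i + 2) := by
    intro c
    induction c with
    | zero => simp
    | succ c ih =>
      have e1 : 3 * i + 2 + (c + 1) * p = 3 * i + 2 + c * p + p := by ring
      rw [e1, rem_of_dig h.hβ hper _ (by omega), ih]
  have hp := hper.1
  have hbig : 6 * J + 3 ≤ 3 * i + 2 + (6 * J + 3) * p := by nlinarith
  obtain ⟨l₀, l₁, l₂, l₃, l₄, l₅, hc, hr⟩ := in_cycle h J hJ _ hbig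
  rw [hall, r0] at hr
  have hz := V_sub ε μ e l₀ l₁ l₂ l₃ l₄ l₅ i i i (i + 1) (i + 1) (i + 1)
  rw [hr, sub_self] at hz
  obtain ⟨z0, z1, z2⟩ := indep h _ _ _ _ _ _ hz
  exact hc.not_three ⟨by omega, by omega⟩

/-- existence of the parameters -/
lemma exists_par (j : ℤ) (hj : 2 ≤ j) : ∃ β θ ε μ e : ℝ, Par j β θ ε μ e := by
  have hjR : (2 : ℝ) ≤ j := by exact_mod_cast hj
  obtain ⟨t, ht⟩ : ∃ t : ℝ, t = 80 * j + 22 := ⟨_, rfl⟩
  have ht181 : 181 ≤ t := by rw [ht]; linarith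
  obtain ⟨θ, h1, h2, h3⟩ := ivt t (t - 1) t (by linarith) (Or.inr ⟨by nlinarith, by nlinarith⟩)
  have h4 : θ ≠ t - 1 := by
    intro h4
    rw [h4] at h3
    have : (t - 1) * (-20) = 0 := by linear_combination h3
    nlinarith
  have h5 : t - 1 < θ := lt_of_le_of_ne h1 (Ne.symm h4)
  have h6 : 0 ≤ θ ^ 2 - 4 := by nlinarith
  have h7 : √(θ ^ 2 - 4) ^ 2 = θ ^ 2 - 4 := Real.sq_sqrt h6
  have h8 := Real.sqrt_nonneg (θ ^ 2 - 4)
  refine ⟨(θ + √(θ ^ 2 - 4)) / 2, θ, θ - (t - 1), (θ - √(θ ^ 2 - 4)) / 2,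
    2 * (θ - (t - 1)) / θ, ⟨hj, by rw [ht]; ring, by linarith, ?_, ?_, ?_, by ring, by linarith⟩⟩
  · linear_combination h3
  · have : θ ≠ 0 := by linarith
    field_simp
  · linear_combination (-1 / 4 : ℝ) * h7

/-- For every `N` there is a Salem number `β` of degree `6` whose greedy expansion of `1` is
eventually periodic with preperiod length `m > N`. -/
theorem result : ∀ N : ℕ, ∃ β : ℝ, IsSalem β ∧ (minpoly ℚ β).natDegree = 6 ∧
    ∃ m : ℕ, IsLeast {m : ℕ | ∃ p : ℕ, PeriodicFrom β m p} m ∧ N < m := by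
  intro N
  obtain ⟨β, θ, ε, μ, e, h⟩ := exists_par (3 * (N : ℤ) + 2) (by omega)
  have hJ : ((3 * N + 2 : ℕ) : ℤ) = 3 * (N : ℤ) + 2 := by push_cast; rfl
  obtain ⟨m₀, p₀, hper⟩ := eventually_periodic h (3 * N + 2) hJ
  have hne : {m : ℕ | ∃ p : ℕ, PeriodicFrom β m p}.Nonempty := ⟨m₀, p₀, hper⟩
  refine ⟨β, salem h, degree_six h, sInf {m : ℕ | ∃ p : ℕ, PeriodicFrom β m p},
    ⟨Nat.sInf_mem hne, fun m hm => Nat.sInf_le hm⟩, ?_⟩
  obtain ⟨p, hp⟩ := Nat.sInf_mem hne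
  have := lower h (3 * N + 2) hJ hp
  omega

end Pool.Agent.Results.MP_e4c55d_nt.UnboundedPreperiod
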